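import Pool.Agent.K1H73.SQB.Stm2
import Pool.Agent.Y61.SQ.AVG

set_option autoImplicit false

/-! # Project SQB, part 2: the two error sums (by helper4; adapted from `Pool.Agent.K1H7.SQB.t_ERR`
and `Pool.Agent.Y61.SQ.AVG`) -/

namespace Pool.Agent.K1H4.SQB

open Finset Filter Pool.Agent.Y862.SQ Pool.Agent.Y61.SQ Pool.Agent.K1H73.SQB

section generic
variable {α : Type} [DecidableEq α]

theorem gabs_prod_sub_one (s : Finset α) (f : α → ℝ) :
    |∏ h ∈ s, f h - 1| ≤ ∏ h ∈ s, (1 + |f h - 1|) - 1 := by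
  induction s using Finset.induction_on with
  | empty => simp
  | insert a s ha ih =>
    rw [prod_insert ha, prod_insert ha]
    have h1 : f a * ∏ h ∈ s, f h - 1 = (f a - 1) * (∏ h ∈ s, f h - 1) + (f a - 1) +
        (∏ h ∈ s, f h - 1) := by ring
    rw [h1]
    have h2 := abs_nonneg (f a - 1)
    have h3 := abs_nonneg (∏ h ∈ s, f h - 1)
    calc _ ≤ |f a - 1| * |∏ h ∈ s, f h - 1| + |f a - 1| + |∏ h ∈ s, f h - 1| := by
          refine (abs_add_le _ _).trans ?_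
          gcongr
          refine (abs_add_le _ _).trans ?_
          rw [abs_mul]
      _ ≤ _ := by nlinarith

theorem gerr_one (K : ℕ) (E : Finset α) (T : ℕ) (hE : E.card = T) (hK : K ≤ T) (hT : 1 ≤ T)
    (f : α → ℝ) (x : ℝ) (hx0 : 0 ≤ x) (hx1 : x ≤ 1) (hG : ∑ h ∈ E, |f h - 1| ≤ T * x) :
    ∑ H ∈ powersetCard K E, |∏ h ∈ H, f h - 1| ≤
      (T : ℝ) ^ K / K.factorial * (2 ^ K * x + (K : ℝ) ^ 2 / T) := by
  have hT0 : (0 : ℝ) < T := by exact_mod_cast hT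
  have h1 : ∑ H ∈ powersetCard K E, |∏ h ∈ H, f h - 1| ≤
      ∑ H ∈ powersetCard K E, (∏ h ∈ H, (1 + |f h - 1|) - 1) :=
    sum_le_sum fun H _ => gabs_prod_sub_one H f
  refine h1.trans ?_
  rw [sum_sub_distrib]
  have h2 := Pool.Agent.H986R2.KSat.esymm_le E (fun h => 1 + |f h - 1|)
    (fun h _ => by positivity) K
  have h3 : ∑ h ∈ E, (1 + |f h - 1|) ≤ T * (1 + x) := by
    rw [sum_add_distrib]
    simp only [sum_const, hE, nsmul_eq_mul, mul_one]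
    linarith
  have h4 : (∑ h ∈ E, (1 + |f h - 1|)) ^ K ≤ (T : ℝ) ^ K * (1 + 2 ^ K * x) := by
    calc _ ≤ (T * (1 + x)) ^ K := by
          gcongr
      _ = (T : ℝ) ^ K * (1 + x) ^ K := mul_pow _ _ _
      _ ≤ _ := by
          gcongr
          exact one_add_pow_le hx0 hx1 K
  have h5 : ∑ H ∈ powersetCard K E, (1 : ℝ) = (T.choose K : ℝ) := by
    rw [sum_const, card_powersetCard, hE, nsmul_eq_mul, mul_one]
  have hf : (0 : ℝ) < K.factorial := by positivity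
  have h6 : (T : ℝ) ^ K * (1 - (K : ℝ) ^ 2 / T) ≤ K.factorial * (T.choose K : ℝ) := by
    have e1 : (K.factorial : ℝ) * (T.choose K : ℝ) = ((T.descFactorial K : ℕ) : ℝ) := by
      rw [Nat.descFactorial_eq_factorial_mul_choose]
      push_cast
      ring
    rw [e1]
    have e2 : (((T + 1 - K) ^ K : ℕ) : ℝ) ≤ ((T.descFactorial K : ℕ) : ℝ) := by
      exact_mod_cast Nat.pow_sub_le_descFactorial T K
    refine le_trans ?_ e2
    push_cast [Nat.cast_sub (by omega : K ≤ T + 1)]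
    have hKT : (K : ℝ) ≤ T := by exact_mod_cast hK
    have e3 : ((T : ℝ) - K) ^ K ≤ ((T : ℝ) + 1 - K) ^ K :=
      pow_le_pow_left₀ (by linarith) (by linarith) K
    refine le_trans ?_ e3
    have e4 : (T : ℝ) - K = T * (1 + -(K / T)) := by field_simp; ring
    rw [e4, mul_pow]
    gcongr
    have e5 : -2 ≤ -((K : ℝ) / T) := by
      have : (K : ℝ) / T ≤ 1 := by rw [div_le_one hT0]; exact hKT
      linarith
    refine le_trans (le_of_eq ?_) (one_add_mul_le_pow e5 K)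
    ring
  rw [h5]
  calc _ ≤ (T : ℝ) ^ K * (1 + 2 ^ K * x) / K.factorial - (T : ℝ) ^ K * (1 - (K : ℝ) ^ 2 / T) /
        K.factorial := by
        refine sub_le_sub (h2.trans ?_) ?_
        · gcongr
        · rw [div_le_iff₀ hf]
          linarith
    _ = _ := by ring

/-- sum over the sets containing two given elements -/
theorem gsum_two (k : ℕ) (E : Finset α) (a b : α) (hab : a ≠ b) (F : α → ℝ) (hF : ∀ h, 0 ≤ F h) :
    ∑ H ∈ (powersetCard (k + 2) E).filter (fun H => a ∈ H ∧ b ∈ H), ∏ h ∈ H, F h ≤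
      F a * F b * (∑ h ∈ E, F h) ^ k := by
  have h1 : ∀ H ∈ (powersetCard (k + 2) E).filter (fun H => a ∈ H ∧ b ∈ H),
      ∏ h ∈ H, F h = F a * F b * ∏ h ∈ (H.erase a).erase b, F h := by
    intro H hH
    rw [mem_filter] at hH
    rw [← mul_prod_erase H F hH.2.1, ← mul_prod_erase (H.erase a) F
      (mem_erase.2 ⟨hab.symm, hH.2.2⟩), mul_assoc]
  rw [sum_congr rfl h1, ← mul_sum]
  refine mul_le_mul_of_nonneg_left ?_ (mul_nonneg (hF a) (hF b))
  have hinj : Set.InjOn (fun H : Finset α => (H.erase a).erase b)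
      ((powersetCard (k + 2) E).filter (fun H => a ∈ H ∧ b ∈ H)) := by
    intro H hH H' hH' h
    rw [mem_coe, mem_filter] at hH hH'
    have e1 : ∀ H : Finset α, a ∈ H → b ∈ H → H = insert a (insert b ((H.erase a).erase b)) := by
      intro H ha hb
      rw [insert_erase (mem_erase.2 ⟨hab.symm, hb⟩), insert_erase ha]
    simp only at h
    rw [e1 H hH.2.1 hH.2.2, e1 H' hH'.2.1 hH'.2.2, h]
  have h2 : ∑ H ∈ (powersetCard (k + 2) E).filter (fun H => a ∈ H ∧ b ∈ H),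
      ∏ h ∈ (H.erase a).erase b, F h ≤ ∑ H ∈ powersetCard k E, ∏ h ∈ H, F h := by
    rw [← sum_image (f := fun H => ∏ h ∈ H, F h) hinj]
    refine sum_le_sum_of_subset_of_nonneg ?_ (fun H _ _ => prod_nonneg fun h _ => hF h)
    intro H hH
    rw [mem_image] at hH
    obtain ⟨H', hH', rfl⟩ := hH
    rw [mem_filter, mem_powersetCard] at hH'
    obtain ⟨⟨h1, h2⟩, h3, h4⟩ := hH'
    rw [mem_powersetCard]
    refine ⟨((erase_subset _ _).trans (erase_subset _ _)).trans h1, ?_⟩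
    rw [card_erase_of_mem (mem_erase.2 ⟨hab.symm, h4⟩), card_erase_of_mem h3, h2]
    omega
  refine h2.trans ((Pool.Agent.H986R2.KSat.esymm_le E F (fun h _ => hF h) k).trans ?_)
  have h3 : (0 : ℝ) ≤ (∑ h ∈ E, F h) ^ k := pow_nonneg (sum_nonneg fun h _ => hF h) k
  exact div_le_self h3 (by exact_mod_cast Nat.one_le_iff_ne_zero.2 (Nat.factorial_ne_zero k))

theorem gsum_shift (E : Finset α) (F : α → ℝ) (d : α → α → ℝ) (B : ℝ)
    (hd : ∀ a b, 0 ≤ d a b) (hsym : ∀ a b, d a b = d b a)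
    (hB : ∀ a ∈ E, ∑ b ∈ E.filter (fun b => b ≠ a), d a b ≤ B) :
    ∑ x ∈ (E ×ˢ E).filter (fun x => x.1 ≠ x.2), d x.1 x.2 * (F x.1 * F x.2) ≤
      (∑ h ∈ E, F h ^ 2) * B := by
  have h0 : ∀ x ∈ (E ×ˢ E).filter (fun x => x.1 ≠ x.2), d x.1 x.2 * (F x.1 * F x.2) ≤
      (1 / 2) * (d x.1 x.2 * F x.1 ^ 2) + (1 / 2) * (d x.1 x.2 * F x.2 ^ 2) := by
    intro x _
    have := mul_nonneg (hd x.1 x.2) (sq_nonneg (F x.1 - F x.2))
    nlinarith
  refine (sum_le_sum h0).trans ?_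
  rw [sum_add_distrib, ← mul_sum, ← mul_sum]
  have key : ∀ a ∈ E, ∑ b ∈ E, (if a ≠ b then d a b * F a ^ 2 else 0) ≤ F a ^ 2 * B := by
    intro a ha
    rw [← sum_filter]
    have e : ∀ b ∈ E.filter (fun b => a ≠ b), d a b * F a ^ 2 = F a ^ 2 * d a b :=
      fun b _ => mul_comm _ _
    rw [sum_congr rfl e, ← mul_sum]
    refine mul_le_mul_of_nonneg_left ?_ (sq_nonneg _)
    have e2 : E.filter (fun b => a ≠ b) = E.filter (fun b => b ≠ a) := by
      ext b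
      simp only [mem_filter, ne_comm]
    rw [e2]
    exact hB a ha
  have h1 : ∑ x ∈ (E ×ˢ E).filter (fun x => x.1 ≠ x.2), d x.1 x.2 * F x.1 ^ 2 ≤
      (∑ h ∈ E, F h ^ 2) * B := by
    rw [sum_filter, sum_product, sum_mul]
    exact sum_le_sum fun a ha => key a ha
  have h2 : ∑ x ∈ (E ×ˢ E).filter (fun x => x.1 ≠ x.2), d x.1 x.2 * F x.2 ^ 2 ≤
      (∑ h ∈ E, F h ^ 2) * B := by
    rw [sum_filter, sum_product, sum_comm, sum_mul]
    refine sum_le_sum fun b hb => ?_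
    refine le_trans (le_of_eq (sum_congr rfl fun a _ => ?_)) (key b hb)
    by_cases h : a = b
    · subst h; simp
    · rw [if_pos h, if_pos (Ne.symm h), hsym a b]
  linarith

/-- second error -/
theorem gerr_two (k : ℕ) (E : Finset α) (F : α → ℝ) (d : α → α → ℝ) (B : ℝ)
    (hF : ∀ h, 0 ≤ F h) (hd : ∀ a b, 0 ≤ d a b) (hsym : ∀ a b, d a b = d b a)
    (hB : ∀ a ∈ E, ∑ b ∈ E.filter (fun b => b ≠ a), d a b ≤ B) :
    ∑ H ∈ powersetCard (k + 2) E, (∏ h ∈ H, F h) *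
      ∑ x ∈ (H ×ˢ H).filter (fun x => x.1 ≠ x.2), d x.1 x.2 ≤
      (∑ h ∈ E, F h) ^ k * ((∑ h ∈ E, F h ^ 2) * B) := by
  have h1 : ∀ H ∈ powersetCard (k + 2) E,
      (∏ h ∈ H, F h) * ∑ x ∈ (H ×ˢ H).filter (fun x => x.1 ≠ x.2), d x.1 x.2 =
      ∑ x ∈ (E ×ˢ E).filter (fun x => x.1 ≠ x.2),
        if (x.1 ∈ H ∧ x.2 ∈ H) then d x.1 x.2 * ∏ h ∈ H, F h else 0 := by
    intro H hH
    rw [mem_powersetCard] at hH
    rw [← Finset.sum_filter, mul_sum]
    apply Finset.sum_congr _ (fun _ _ => mul_comm _ _)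
    ext x
    rw [mem_filter, mem_filter, mem_filter, mem_product, mem_product]
    constructor
    · rintro ⟨⟨a1, a2⟩, a3⟩
      exact ⟨⟨⟨hH.1 a1, hH.1 a2⟩, a3⟩, a1, a2⟩
    · rintro ⟨⟨_, a3⟩, a1, a2⟩
      exact ⟨⟨a1, a2⟩, a3⟩
  rw [sum_congr rfl h1, sum_comm]
  have h2 : ∀ x ∈ (E ×ˢ E).filter (fun x => x.1 ≠ x.2), ∑ H ∈ powersetCard (k + 2) E,
      (if (x.1 ∈ H ∧ x.2 ∈ H) then d x.1 x.2 * ∏ h ∈ H, F h else 0) ≤
        (∑ h ∈ E, F h) ^ k * (d x.1 x.2 * (F x.1 * F x.2)) := by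
    intro x hx
    rw [← sum_filter, ← mul_sum]
    have hne : x.1 ≠ x.2 := (mem_filter.1 hx).2
    have h3 := mul_le_mul_of_nonneg_left (gsum_two k E x.1 x.2 hne F hF) (hd x.1 x.2)
    exact h3.trans (le_of_eq (by ring))
  refine (sum_le_sum h2).trans ?_
  rw [← mul_sum]
  exact mul_le_mul_of_nonneg_left (gsum_shift E F d B hd hsym hB)
    (pow_nonneg (sum_nonneg fun h _ => hF h) k)

theorem gerr_two_one (E : Finset α) (F : α → ℝ) (d : α → α → ℝ) :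
    ∑ H ∈ powersetCard 1 E, (∏ h ∈ H, F h) *
      ∑ x ∈ (H ×ˢ H).filter (fun x => x.1 ≠ x.2), d x.1 x.2 = 0 := by
  refine Finset.sum_eq_zero fun H hH => ?_
  rw [mem_powersetCard] at hH
  obtain ⟨a, ha⟩ := Finset.card_eq_one.1 hH.2
  have : (H ×ˢ H).filter (fun x => x.1 ≠ x.2) = ∅ := by
    rw [Finset.eq_empty_iff_forall_notMem]
    intro x hx
    rw [mem_filter, mem_product, ha, mem_singleton, mem_singleton] at hx
    exact hx.2 (hx.1.1.trans hx.1.2.symm)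
  rw [this]
  simp

end generic

lemma Rn_comm (z z' : ℕ × ℕ) : Rn z z' = Rn z' z := by
  unfold Rn
  rw [Nat.dist_comm z.2 z'.2, Nat.dist_comm z.1 z'.1, add_comm z.2 z'.2]

lemma sum_EE (J T : ℕ) (g : ℕ → ℝ) :
    ∑ z ∈ EE J T, g z.2 = ((J + 1 : ℕ) : ℝ) * ∑ h ∈ Icc 1 T, g h := by
  unfold EE
  rw [sum_product]
  show ∑ _x ∈ range (J + 1), ∑ h ∈ Icc 1 T, g h = _
  rw [sum_const, card_range, nsmul_eq_mul]

lemma card_EE (J T : ℕ) : (EE J T).card = (J + 1) * T := by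
  unfold EE
  rw [card_product, card_range, Nat.card_Icc, Nat.add_sub_cancel]

set_option maxHeartbeats 4000000 in
theorem t_ERR2 (hM : S_MERT) (h1 : S_FM) (h2 : S_COLL2) : S_ERR2 := by
  intro K J w1 η hK1 hη
  obtain ⟨k, hK⟩ : ∃ k : ℕ, K = k + 1 := ⟨K - 1, by omega⟩
  obtain ⟨c, hc0, hc1, hc⟩ := V1_low hM
  obtain ⟨w0, hFM⟩ := h1
  obtain ⟨C, hC0, hC⟩ := h2 ((1 + 4 * K) ^ (K ^ 2) - 1) J
  have hJ1 : (1 : ℝ) ≤ ((J + 1 : ℕ) : ℝ) := by exact_mod_cast (by omega : 1 ≤ J + 1)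
  have hJK : (1 : ℝ) ≤ ((J + 1 : ℕ) : ℝ) ^ K := one_le_pow₀ hJ1
  have hJK0 : (0 : ℝ) < ((J + 1 : ℕ) : ℝ) ^ K := by linarith
  obtain ⟨δ, hδ⟩ : ∃ δ : ℝ, δ = min η 1 / (8 * ((J + 1 : ℕ) : ℝ) ^ K) := ⟨_, rfl⟩
  have hδ0 : 0 < δ := by rw [hδ]; have := lt_min hη one_pos; positivity
  have hδη : 8 * (δ * ((J + 1 : ℕ) : ℝ) ^ K) ≤ η := by
    have e : 8 * (δ * ((J + 1 : ℕ) : ℝ) ^ K) = min η 1 := by
      rw [hδ]
      field_simp
    rw [e]
    exact min_le_left _ _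
  have hδη' : δ ≤ η := by
    have := mul_le_mul_of_nonneg_left hJK hδ0.le
    linarith
  have hKf : (0 : ℝ) < K.factorial := by positivity
  obtain ⟨A, hA⟩ : ∃ A : ℝ, A = 4 * (K : ℝ) ^ 2 + 2 ^ K + 2 ^ K * C * K.factorial := ⟨_, rfl⟩
  have hA0 : 0 ≤ A := by rw [hA]; positivity
  obtain ⟨w, hw0, hw3, hwA⟩ := exists_w A hA0 K c (δ / 2) hc0 (by positivity)
    (max (max w0 (4 * K + 2)) w1)
  have hww0 : w0 ≤ w := (le_max_left _ _).trans ((le_max_left _ _).trans hw0)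
  have hwK : 4 * K + 2 ≤ w := (le_max_right _ _).trans ((le_max_left _ _).trans hw0)
  have hww1 : w1 ≤ w := (le_max_right _ _).trans hw0
  have hw1 : (1 : ℝ) ≤ w := by exact_mod_cast (by omega : 1 ≤ w)
  have hwpos : (0 : ℝ) < w := by linarith
  -- the small quantity
  obtain ⟨x, hx⟩ : ∃ x : ℝ, x = (√(√(w : ℝ)))⁻¹ := ⟨_, rfl⟩
  have hss : 1 ≤ √(√(w : ℝ)) := by
    rw [Real.one_le_sqrt, Real.one_le_sqrt]
    exact hw1
  have hx0 : 0 < x := by rw [hx]; positivity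
  have hx1 : x ≤ 1 := by rw [hx]; exact inv_le_one_of_one_le₀ hss
  have hx2 : x ^ 2 = (√(w : ℝ))⁻¹ := by
    rw [hx, inv_pow, Real.sq_sqrt (Real.sqrt_nonneg _)]
  have hx4 : (w : ℝ)⁻¹ = x ^ 4 := by
    have : x ^ 4 = (x ^ 2) ^ 2 := by ring
    rw [this, hx2, inv_pow, Real.sq_sqrt hwpos.le]
  have hxw : (w : ℝ)⁻¹ ≤ x := by
    rw [hx4]
    calc x ^ 4 ≤ x ^ 1 := pow_le_pow_of_le_one hx0.le hx1 (by norm_num)
      _ = x := pow_one x
  rw [← hx] at hwA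
  have hlog1 : 1 ≤ Real.log w := by
    rw [Real.le_log_iff_exp_le hwpos]
    have : (3 : ℝ) ≤ w := by exact_mod_cast hw3
    linarith [Real.exp_one_lt_d9]
  obtain ⟨V, hV⟩ : ∃ V : ℝ, V = V1 w := ⟨_, rfl⟩
  have hVpos : 0 < V := by rw [hV]; exact V1_pos w
  have hcV : (c / Real.log w) ^ K ≤ V ^ K := by
    rw [hV]
    exact pow_le_pow_left₀ (by positivity) (hc w hw3) K
  have hc1' : (c / Real.log w) ^ K ≤ 1 := by
    apply pow_le_one₀ (by positivity)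
    rw [div_le_one (by linarith)]
    linarith
  have hAV : A * x ≤ δ / 2 * V ^ K := hwA.trans (by gcongr)
  have hA1 : A * x ≤ δ / 2 := hwA.trans (mul_le_of_le_one_right (by positivity) hc1')
  have i1 : 4 * (K : ℝ) ^ 2 / w ≤ δ := by
    calc 4 * (K : ℝ) ^ 2 / w = 4 * (K : ℝ) ^ 2 * (w : ℝ)⁻¹ := div_eq_mul_inv _ _
      _ ≤ A * x := by
          apply mul_le_mul _ hxw (by positivity) hA0
          rw [hA]
          have : (0 : ℝ) ≤ 2 ^ K + 2 ^ K * C * K.factorial := by positivity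
          linarith
      _ ≤ δ := by linarith
  have i2 : 2 ^ K * x ≤ δ / 2 * V ^ K := by
    refine le_trans (mul_le_mul_of_nonneg_right ?_ hx0.le) hAV
    rw [hA]
    have : (0 : ℝ) ≤ 4 * (K : ℝ) ^ 2 + 2 ^ K * C * K.factorial := by positivity
    linarith
  have i3 : 2 ^ K * C / w ≤ δ * V ^ K / K.factorial := by
    rw [le_div_iff₀ hKf]
    calc 2 ^ K * C / w * K.factorial = 2 ^ K * C * K.factorial * (w : ℝ)⁻¹ := by
          rw [div_eq_mul_inv]; ring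
      _ ≤ A * x := by
          apply mul_le_mul _ hxw (by positivity) hA0
          rw [hA]
          have : (0 : ℝ) ≤ 4 * (K : ℝ) ^ 2 + 2 ^ K := by positivity
          linarith
      _ ≤ δ * V ^ K := by
          refine hAV.trans ?_
          gcongr
          linarith
  obtain ⟨T1, hT1⟩ := hFM w hww0
  obtain ⟨T2, hT2⟩ := hC w (by omega)
  obtain ⟨T3, hT3⟩ := exists_nat_ge (2 * (K : ℝ) ^ 2 / (δ * V ^ K))
  refine ⟨w, T1 + T2 + T3 + K + 1, hww1, hwK, i1.trans hδη', ?_⟩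
  intro T hT y hy
  obtain ⟨N, hN⟩ : ∃ N : ℕ, N = (J + 1) * T := ⟨_, rfl⟩
  have hNT : T ≤ N := by rw [hN]; exact Nat.le_mul_of_pos_left _ (by omega)
  have hNr : (N : ℝ) = ((J + 1 : ℕ) : ℝ) * T := by rw [hN, Nat.cast_mul]
  have hTpos : (0 : ℝ) < T := by exact_mod_cast (by omega : 0 < T)
  have hNpos : (0 : ℝ) < N := by exact_mod_cast (by omega : 0 < N)
  have hTN : (T : ℝ) ≤ N := by exact_mod_cast hNT
  have hFM' := hT1 T (by omega) y
  have hcard : (EE J T).card = N := by rw [card_EE, hN]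
  obtain ⟨F, hF⟩ : ∃ F : ℕ × ℕ → ℝ, F = fun z => Ff w y z.2 := ⟨_, rfl⟩
  have hF0 : ∀ h, 0 ≤ F h := by intro h; rw [hF]; exact Ff_nonneg w y h.2
  have hFM2 : ∑ h ∈ EE J T, (F h - 1) ^ 2 ≤ N * x ^ 2 := by
    rw [hF]
    have e := sum_EE J T (fun h => (Ff w y h - 1) ^ 2)
    rw [e, hNr, mul_assoc]
    refine mul_le_mul_of_nonneg_left ?_ (by positivity)
    rw [hx2, ← div_eq_mul_inv]
    exact hFM'
  have hG : ∑ h ∈ EE J T, |F h - 1| ≤ N * x := by
    apply le_of_sq_le_sq _ (by positivity)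
    have e1 := sq_sum_le_card_mul_sum_sq (s := EE J T) (f := fun h => |F h - 1|)
    simp only [sq_abs] at e1
    rw [hcard] at e1
    calc _ ≤ (N : ℝ) * ∑ h ∈ EE J T, (F h - 1) ^ 2 := e1
      _ ≤ N * (N * x ^ 2) := by gcongr
      _ = _ := by ring
  have hTT : (N : ℝ) * x ≤ N := mul_le_of_le_one_right hNpos.le hx1
  have hS : ∑ h ∈ EE J T, F h ≤ 2 * N := by
    have e1 : ∑ h ∈ EE J T, F h ≤ ∑ h ∈ EE J T, (|F h - 1| + 1) :=
      sum_le_sum fun h _ => by linarith [le_abs_self (F h - 1)]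
    rw [sum_add_distrib] at e1
    simp only [sum_const, hcard, nsmul_eq_mul, mul_one] at e1
    linarith
  have hS2 : ∑ h ∈ EE J T, F h ^ 2 ≤ 4 * N := by
    have e1 : ∑ h ∈ EE J T, F h ^ 2 ≤ ∑ h ∈ EE J T, (2 * (F h - 1) ^ 2 + 2) :=
      sum_le_sum fun h _ => sq_le_two (F h)
    rw [sum_add_distrib, ← mul_sum] at e1
    simp only [sum_const, hcard, nsmul_eq_mul] at e1
    have : (N : ℝ) * x ^ 2 ≤ N := mul_le_of_le_one_right hNpos.le (pow_le_one₀ hx0.le hx1)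
    linarith
  obtain ⟨M, hMd⟩ : ∃ M : ℝ, M = (N * V) ^ K / K.factorial := ⟨_, rfl⟩
  have hM0 : 0 < M := by rw [hMd]; positivity
  have hMe : (N : ℝ) ^ K / K.factorial * V ^ K = M := by rw [hMd, mul_pow]; ring
  obtain ⟨S1, hS1⟩ : ∃ S1 : ℝ, S1 = ∑ H ∈ powersetCard K (EE J T), |∏ h ∈ H, F h - 1| := ⟨_, rfl⟩
  have hS1le : S1 ≤ δ * M := by
    rw [hS1]
    refine (gerr_one K (EE J T) N hcard (by omega) (by omega) F x hx0.le hx1 hG).trans ?_
    rw [← hMe]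
    have e1 : (K : ℝ) ^ 2 / N ≤ δ / 2 * V ^ K := by
      have e2 : (T3 : ℝ) ≤ N := by exact_mod_cast (by omega : T3 ≤ N)
      have e3 := hT3.trans e2
      rw [div_le_iff₀ (by positivity)] at e3
      rw [div_le_iff₀ hNpos]
      linarith
    calc _ ≤ (N : ℝ) ^ K / K.factorial * (δ / 2 * V ^ K + δ / 2 * V ^ K) := by gcongr
      _ = _ := by ring
  obtain ⟨d, hd⟩ : ∃ d : ℕ × ℕ → ℕ × ℕ → ℝ,
    d = fun z z' => Dd ((1 + 4 * K) ^ (K ^ 2) - 1) w (Rn z z') - 1 := ⟨_, rfl⟩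
  have hd0 : ∀ z z', 0 ≤ d z z' := by intro z z'; rw [hd]; exact Dd_ge _ _ _
  have hdsym : ∀ z z', d z z' = d z' z := by
    intro z z'
    rw [hd]
    show _ - _ = _ - _
    rw [Rn_comm]
  have hds : ∀ z ∈ EE J T, ∑ z' ∈ (EE J T).filter (fun z' => z' ≠ z), d z z' ≤ C * N / w := by
    intro z hz
    rw [hd]
    refine (hT2 T (by omega) z hz).trans ?_
    gcongr
  have hCN : 0 ≤ C * N / w := by positivity
  obtain ⟨S2, hS2d⟩ : ∃ S2 : ℝ, S2 = ∑ H ∈ powersetCard K (EE J T),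
    (∏ h ∈ H, F h) * ∑ z ∈ prs2 H, d z.1 z.2 := ⟨_, rfl⟩
  have hS2le : S2 ≤ δ * M := by
    have e1 : S2 ≤ (N : ℝ) ^ K * (2 ^ K * C / w) := by
      rcases k with _ | k
      · rw [hS2d, hK]
        unfold prs2
        rw [gerr_two_one]
        positivity
      · have hK' : K = k + 2 := by omega
        rw [hS2d, hK']
        unfold prs2
        refine (gerr_two k (EE J T) F d (C * N / w) hF0 hd0 hdsym hds).trans ?_
        calc _ ≤ (2 * (N : ℝ)) ^ k * ((4 * N) * (C * N / w)) := by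
              refine mul_le_mul (pow_le_pow_left₀ (sum_nonneg fun t _ => hF0 t) hS k)
                (mul_le_mul hS2 le_rfl hCN (by positivity))
                (mul_nonneg (sum_nonneg fun t _ => sq_nonneg _) hCN)
                (by positivity)
          _ = _ := by ring
    refine e1.trans ?_
    rw [← hMe]
    calc _ ≤ (N : ℝ) ^ K * (δ * V ^ K / K.factorial) := by gcongr
      _ = _ := by ring
  have hfac : (1 : ℝ) ≤ K.factorial := by exact_mod_cast Nat.succ_le_of_lt K.factorial_pos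
  have hMle : M ≤ ((J + 1 : ℕ) : ℝ) ^ K * (T * V) ^ K := by
    rw [hMd, hNr, ← mul_pow, ← mul_assoc]
    exact div_le_self (by positivity) hfac
  have hfin : δ * M ≤ η * (T * V1 w) ^ K := by
    rw [← hV]
    have hTV : (0 : ℝ) ≤ (T * V) ^ K := by positivity
    calc δ * M ≤ δ * (((J + 1 : ℕ) : ℝ) ^ K * (T * V) ^ K) :=
          mul_le_mul_of_nonneg_left hMle hδ0.le
      _ = (δ * ((J + 1 : ℕ) : ℝ) ^ K) * (T * V) ^ K := by ring
      _ ≤ η * (T * V) ^ K := by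
          refine mul_le_mul_of_nonneg_right ?_ hTV
          have : 0 ≤ δ * ((J + 1 : ℕ) : ℝ) ^ K := by positivity
          linarith
  constructor
  · rw [hS1, hF] at hS1le
    exact hS1le.trans hfin
  · rw [hS2d, hF, hd] at hS2le
    exact hS2le.trans hfin

end Pool.Agent.K1H4.SQB
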